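import Pool.Agent.H9.NearInt

set_option autoImplicit false

namespace Pool.Agent.Results.MP_af7c6a_co.Superlinear

theorem result : ∀ A : ℕ, ∃ d : ℕ, 1 ≤ d ∧ ∃ N : (Fin d → ℝ) → ℝ,
    (∀ x, N x = 0 → x = 0) ∧ (∀ (c : ℝ) x, N (c • x) = |c| * N x) ∧
    (∀ x y, N (x + y) ≤ N x + N y) ∧
    ∀ δ : ℝ, 0 < δ → δ < 1 / 2 →
      Filter.Tendsto (fun X : ℝ => ((sSup {n : ℕ | ∃ (c : Fin d → ℝ) (p : Fin n → Fin d → ℝ),
        (∀ i, N (p i - c) ≤ X) ∧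
        ∀ i j, i ≠ j → δ ≤ |N (p i - p j) - round (N (p i - p j))|} : ℕ) : ℝ) / X ^ A)
        Filter.atTop Filter.atTop :=
  Pool.Agent.H9.NearInt.final

end Pool.Agent.Results.MP_af7c6a_co.Superlinear
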